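import Pool.Agent.Lib.MP_2a9317_an.N1.Fin

set_option autoImplicit false

namespace Pool.Agent.Results.MP_2a9317_an.AffineFieldThreshold

open Pool.Agent.Lib.MP_2a9317_an

/-- The affine problem (Q2).  `n_K(2) = 2`, `n_K(3) ≤ 2` and `n_K(k) = 1` for every `k ≥ 4`.
More precisely:

* (one field, two phases) for all positive definite `K_0`, `K_1` on `S_1 ⊕ ℝ` the G-closure equals
  the lamination closure, and the effective matrix of every periodic composite is exactly the
  matrix of a multiple-rank laminate;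
* (two fields) for every `k ≥ 2` there are `k` distinct positive definite phases on `S_2 ⊕ ℝ` and a
  periodic composite of them whose effective matrix is not in the lamination closure;
* (one field, four or more phases) for every `k ≥ 4` there are `k` distinct positive definite phases
  on `S_1 ⊕ ℝ` whose G-closure is not contained in the lamination closure. -/
theorem result :
    nK 2 = 2 ∧ nK 3 ≤ 2 ∧ (∀ k : ℕ, 4 ≤ k → nK k = 1) ∧
    (∀ K : Fin 2 → Matrix (Ent 1 ⊕ Unit) (Ent 1 ⊕ Unit) ℝ, (∀ j, (K j).PosDef) →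
      affG K = affGL K ∧
      ∀ (χ : ℝ × ℝ → Fin 2) (M : Matrix (Ent 1 ⊕ Unit) (Ent 1 ⊕ Unit) ℝ), IsPartition χ →
        AffEffective K χ M → AffLaminate K M) ∧
    (∀ k : ℕ, 2 ≤ k → ∃ K : Fin k → Matrix (Ent 2 ⊕ Unit) (Ent 2 ⊕ Unit) ℝ,
      Function.Injective K ∧ (∀ j, (K j).PosDef) ∧
      ∃ χ : ℝ × ℝ → Fin k, IsPartition χ ∧
        ∃ M : Matrix (Ent 2 ⊕ Unit) (Ent 2 ⊕ Unit) ℝ, AffEffective K χ M ∧ M ∉ affGL K) ∧
    ∀ k : ℕ, 4 ≤ k → ∃ K : Fin k → Matrix (Ent 1 ⊕ Unit) (Ent 1 ⊕ Unit) ℝ,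
      Function.Injective K ∧ (∀ j, (K j).PosDef) ∧ ∃ M ∈ affG K, M ∉ affGL K :=
  ⟨N1.nK_two, T2.nK_le_two' 3 (by norm_num), fun k hk => nK_eq_one k hk,
    fun K hK => ⟨N1.affG_one_two K hK, fun _ _ hχ hM => N1.affEffective_laminate K hK hχ hM⟩,
    fun k hk => T2.aff_two k hk, fun k hk => aff_main k hk⟩

end Pool.Agent.Results.MP_2a9317_an.AffineFieldThreshold
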