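import Pool.Agent.Lib.MP_2a9317_an.TP.Main

set_option autoImplicit false

namespace Pool.Agent.Results.MP_2a9317_an.EqualModuliThreshold

open Pool.Agent.Lib.MP_2a9317_an Pool.Agent.Lib.MP_2a9317_an.TP
open scoped Kronecker

/-- Affine problem (Q2), phases `K_j = (L_j, V_j, c_j)` on `S_n ⊕ ℝ` with equal moduli
`L_j = A ⊗ 1`, `A` a positive definite `2 × 2` matrix (for `n = 1` every `L_j` is of this form).
`toBlocks₁₁` is the block `L_j`.

* Three phases with equal moduli never separate the G-closure and the lamination closure, for any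
  number `n` of fields; the same holds for one or two phases, and for any number of phases that lie
  in an affine plane (`Planar`).
* Four do: for every `k ≥ 4` there are `k` distinct phases with equal moduli on `S_3 ⊕ ℝ` and an
  element of `G` outside `G^L`. -/
theorem result :
    (∀ (n k : ℕ) (A : Matrix (Fin 2) (Fin 2) ℝ)
      (K : Fin k → Matrix (Ent n ⊕ Unit) (Ent n ⊕ Unit) ℝ), A.PosDef → (∀ j, (K j).PosDef) →
      (∀ j, (K j).toBlocks₁₁ = A ⊗ₖ (1 : Matrix (Fin n) (Fin n) ℝ)) →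
      (k ≤ 3 ∨ Planar K) → affG K = affGL K) ∧
    (∀ k : ℕ, 4 ≤ k → ∃ (A : Matrix (Fin 2) (Fin 2) ℝ)
      (K : Fin k → Matrix (Ent 3 ⊕ Unit) (Ent 3 ⊕ Unit) ℝ), A.PosDef ∧
      Function.Injective K ∧ (∀ j, (K j).PosDef) ∧
      (∀ j, (K j).toBlocks₁₁ = A ⊗ₖ (1 : Matrix (Fin 3) (Fin 3) ℝ)) ∧
      ∃ M ∈ affG K, M ∉ affGL K) :=
  ⟨main.1, main.2.1⟩

/-- Stability (not part of `result`): if the moduli of three phases (or of phases in an affine
plane) are within `δ` of `A ⊗ 1` and the vectors `V_j` are within `δ'` of each other, then every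
element of `G` is within `C δ (δ + δ')²` of `G^L`, with `C` depending only on `n` and `A`. -/
theorem stability :
    ∀ n : ℕ, 1 ≤ n → ∀ A : Matrix (Fin 2) (Fin 2) ℝ, A.PosDef → ∃ C δ₀ : ℝ, 0 < δ₀ ∧
      ∀ (k : ℕ) (K : Fin k → Matrix (Ent n ⊕ Unit) (Ent n ⊕ Unit) ℝ), (∀ j, (K j).PosDef) →
      (k = 3 ∨ Planar K) → ∀ δ δ' : ℝ, 0 ≤ δ → δ ≤ δ₀ →
      (∀ j q q', |(K j).toBlocks₁₁ q q' - (A ⊗ₖ (1 : Matrix (Fin n) (Fin n) ℝ)) q q'| ≤ δ) →
      (∀ i j q, |K i (Sum.inl q) (Sum.inr ()) - K j (Sum.inl q) (Sum.inr ())| ≤ δ') →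
      ∀ M ∈ affG K, ∃ M' ∈ affGL K, ∀ r t, |M r t - M' r t| ≤ C * δ * (δ + δ') ^ 2 :=
  main.2.2

end Pool.Agent.Results.MP_2a9317_an.EqualModuliThreshold
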