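import Pool.Agent.Lib.MP_2a9317_an.N1.Fin

set_option autoImplicit false

namespace Pool.Agent.Results.MP_2a9317_an.LinearFieldThreshold

open Pool.Agent.Lib.MP_2a9317_an

/-- The linear problem (Q1).  `n_L(2) = 2`, and `n_L(k) ≤ 2` for every number `k ≥ 2` of phases: for
every `k ≥ 2` there are `k` distinct positive definite phases on `S_2` and a periodic composite of
them whose effective tensor is not in the lamination closure.  (For one field and two phases the
G-closure equals the lamination closure for all positive definite phases, whence `n_L(2) = 2`.) -/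
theorem result :
    nL 2 = 2 ∧
    ∀ k : ℕ, 2 ≤ k → nL k ≤ 2 ∧
      ∃ L : Fin k → Matrix (Ent 2) (Ent 2) ℝ,
        Function.Injective L ∧ (∀ j, (L j).PosDef) ∧
        ∃ χ : ℝ × ℝ → Fin k, IsPartition χ ∧
          ∃ M : Matrix (Ent 2) (Ent 2) ℝ, LinEffective L χ M ∧ M ∉ linGL L :=
  ⟨N1.nL_two, fun k hk => ⟨T2.nL_le_two' k hk, T2.lin_two k hk⟩⟩

end Pool.Agent.Results.MP_2a9317_an.LinearFieldThreshold
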