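import Pool.Agent.Lib.MP_2a9317_an.N1.V3

set_option autoImplicit false

namespace Pool.Agent.Results.MP_2a9317_an.OneFieldVolumeFraction

open Pool.Agent.Lib.MP_2a9317_an

/-- One field, two phases, fixed volume fraction: for ALL positive definite `L_0`, `L_1` on `S_1`
(also non-commuting ones with `L_0 - L_1` indefinite)

* the closure of the set of pairs (volume fraction of phase `0`, effective tensor) over all periodic
  composites equals the closure of the set of these pairs over all multiple-rank laminates;
* so at every volume fraction `θ` the G-closure and the lamination closure coincide;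
* the effective tensor of a periodic composite is exactly the tensor of a multiple-rank laminate
  with the same volume fraction. -/
theorem result : ∀ L : Fin 2 → Matrix (Ent 1) (Ent 1) ℝ, (∀ j, (L j).PosDef) →
    linGv L = linGLv L ∧
    (∀ θ : ℝ, {M | (θ, M) ∈ linGv L} = {M | (θ, M) ∈ linGLv L}) ∧
    ∀ (χ : ℝ × ℝ → Fin 2) (M : Matrix (Ent 1) (Ent 1) ℝ), IsPartition χ → LinEffective L χ M →
      LinLaminateV L (frac χ) M :=
  fun L hL => ⟨N1.linGv_eq L hL, fun θ => by rw [N1.linGv_eq L hL],
    fun _ _ hχ hM => N1.linEffective_laminateV L hL hχ hM⟩

end Pool.Agent.Results.MP_2a9317_an.OneFieldVolumeFraction
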